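import Mathlib
import Pool.Agent.Helper297.Drc
import Pool.Agent.Helper297.Family

set_option autoImplicit false

namespace Pool.Agent.Results.MP_3a192b_co.GrowthTheta

open Finset

/-- The graph `G(A, ε)` of the problem: one vertex per set, `i ≠ j` adjacent when
`|A_i ∩ A_j| < ε n`. -/
def smallGraph {n m : ℕ} (A : Fin m → Finset (Fin n)) (ε : ℝ) : SimpleGraph (Fin m) where
  Adj i j := i ≠ j ∧ ((A i ∩ A j).card : ℝ) < ε * (n : ℝ)
  symm := by
    constructor
    intro i j h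
    exact ⟨h.1.symm, by rw [Finset.inter_comm]; exact h.2⟩
  loopless := by
    constructor
    intro i h
    exact h.1 rfl

/-- The set of chromatic numbers over which the maximum `χ*(n,m,c,ε)` is taken. -/
def chiSet (n m : ℕ) (c ε : ℝ) : Set ℕ :=
  {x | ∃ A : Fin m → Finset (Fin n), (∀ k, c * (n : ℝ) < ((A k).card : ℝ)) ∧
    (smallGraph A ε).chromaticNumber = (x : ℕ∞)}

/-- `χ*(n,m,c,ε)`: the largest chromatic number of `G(A, ε)` over all families of `m` subsets of an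
`n`-set, each of size more than `c n`. -/
noncomputable def chiStar (n m : ℕ) (c ε : ℝ) : ℕ := sSup (chiSet n m c ε)

theorem exists_chromatic {n m : ℕ} (A : Fin m → Finset (Fin n)) (ε : ℝ) :
    ∃ x : ℕ, x ≤ m ∧ (smallGraph A ε).chromaticNumber = (x : ℕ∞) := by
  have h1 : (smallGraph A ε).Colorable m := by
    have := (smallGraph A ε).colorable_of_fintype
    simpa using this
  have h2 : (smallGraph A ε).chromaticNumber ≤ (m : ℕ∞) := h1.chromaticNumber_le
  obtain ⟨x, hx⟩ := ENat.ne_top_iff_exists.mp (ne_top_of_le_ne_top (ENat.natCast_ne_top m) h2)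
  refine ⟨x, ?_, hx.symm⟩
  rw [← hx] at h2
  exact_mod_cast h2

/-- The maximum in the definition of `χ*` is attained. -/
theorem chiStar_isGreatest {n m : ℕ} {c ε : ℝ} (hn : 1 ≤ n) (hc : c < 1) :
    IsGreatest (chiSet n m c ε) (chiStar n m c ε) := by
  have hne : (chiSet n m c ε).Nonempty := by
    obtain ⟨x, _, hx⟩ := exists_chromatic (fun _ : Fin m => (univ : Finset (Fin n))) ε
    refine ⟨x, fun _ => univ, ?_, hx⟩
    intro _
    simp only [Finset.card_univ, Fintype.card_fin]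
    have : (1 : ℝ) ≤ (n : ℝ) := by exact_mod_cast hn
    nlinarith
  have hbd : BddAbove (chiSet n m c ε) := by
    refine ⟨m, ?_⟩
    rintro x ⟨A, _, hx⟩
    obtain ⟨y, hy, hy'⟩ := exists_chromatic A ε
    rw [hy'] at hx
    have : y = x := by exact_mod_cast hx
    omega
  exact ⟨Nat.sSup_mem hne hbd, fun x hx => le_csSup hbd hx⟩

theorem upper {c : ℝ} (hc0 : 0 < c) (hc1 : c < 1) {s : ℕ} (hs : 1 ≤ s) {ε : ℝ}
    (hε : ε ≤ c ^ (s + 1)) {n m : ℕ} (hn : 1 ≤ n) (hm : 1 ≤ m) :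
    (chiStar n m c ε : ℝ) ≤
      (c / 4 * (s : ℝ)⁻¹)⁻¹ * (min (m : ℝ) (2 ^ n)) ^ ((s : ℝ)⁻¹) := by
  classical
  have hnR : (1 : ℝ) ≤ (n : ℝ) := by exact_mod_cast hn
  have hmR : (1 : ℝ) ≤ (m : ℝ) := by exact_mod_cast hm
  have hsR : (1 : ℝ) ≤ (s : ℝ) := by exact_mod_cast hs
  have hsinv : 0 < (s : ℝ)⁻¹ := by positivity
  have : Nonempty (Fin n) := ⟨⟨0, hn⟩⟩
  obtain ⟨A, hA, hx⟩ := (chiStar_isGreatest (n := n) (m := m) (c := c) (ε := ε) hn hc1).1
  let U : Finset (Finset (Fin n)) := univ.image A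
  have hU : ∀ S ∈ U, c * (n : ℝ) < (S.card : ℝ) := by
    intro S hS
    obtain ⟨i, _, rfl⟩ := Finset.mem_image.mp hS
    exact hA i
  obtain ⟨K, col, hK, hcol1, hcol2⟩ := Helper297.Drc.greedy
    (fun S T : Finset (Fin n) => ε * (n : ℝ) ≤ ((S ∩ T).card : ℝ))
    (b := c / 4) (δ := (s : ℝ)⁻¹) (by positivity) hsinv (inv_le_one_of_one_le₀ hsR) U
    (by
      intro J hJU hJ
      obtain ⟨I, hIJ, hI1, hI2⟩ := Helper297.Drc.drc_power hc0 hc1 hs J hJ
        (fun S : Finset (Fin n) => S) (by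
          intro S hS
          have := hU S (hJU hS)
          simpa using this.le)
      refine ⟨I, hIJ, hI1, ?_⟩
      intro S hS T hT hST
      have h1 := hI2 S hS T hT hST
      simp only [Fintype.card_fin] at h1
      have h2 : ε * (n : ℝ) ≤ c ^ (s + 1) * (n : ℝ) := mul_le_mul_of_nonneg_right hε (by linarith)
      linarith) U.card U (Finset.Subset.refl U) rfl
  have hcolorable : (smallGraph A ε).Colorable K := by
    refine ⟨SimpleGraph.Coloring.mk (fun i => (⟨col (A i), hcol1 (A i)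
      (Finset.mem_image_of_mem A (Finset.mem_univ i))⟩ : Fin K)) ?_⟩
    intro i j hij heq
    have hcc : col (A i) = col (A j) := by
      have := congrArg Fin.val heq
      simpa using this
    have hadj : i ≠ j ∧ ((A i ∩ A j).card : ℝ) < ε * (n : ℝ) := hij
    by_cases hAA : A i = A j
    · have h1 := hadj.2
      rw [hAA, Finset.inter_self] at h1
      have h2 := hA j
      have h3 : ε ≤ c := by
        refine hε.trans ?_
        calc c ^ (s + 1) ≤ c ^ 1 := pow_le_pow_of_le_one hc0.le hc1.le (by omega)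
          _ = c := pow_one c
      have h4 : ε * (n : ℝ) ≤ c * (n : ℝ) := mul_le_mul_of_nonneg_right h3 (by linarith)
      linarith
    · have h1 := hcol2 (A i) (Finset.mem_image_of_mem A (Finset.mem_univ i))
        (A j) (Finset.mem_image_of_mem A (Finset.mem_univ j)) hAA hcc
      have h2 := hadj.2
      linarith
  have hle : chiStar n m c ε ≤ K := by
    have := hcolorable.chromaticNumber_le
    rw [hx] at this
    exact_mod_cast this
  have hUW : (U.card : ℝ) ≤ min (m : ℝ) (2 ^ n) := by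
    apply le_min
    · have : U.card ≤ (univ : Finset (Fin m)).card := Finset.card_image_le
      simp only [Finset.card_univ, Fintype.card_fin] at this
      exact_mod_cast this
    · have : U.card ≤ Fintype.card (Finset (Fin n)) := Finset.card_le_univ U
      simp only [Fintype.card_finset, Fintype.card_fin] at this
      exact_mod_cast this
  calc (chiStar n m c ε : ℝ) ≤ (K : ℝ) := by exact_mod_cast hle
    _ ≤ (c / 4 * (s : ℝ)⁻¹)⁻¹ * (U.card : ℝ) ^ ((s : ℝ)⁻¹) := hK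
    _ ≤ (c / 4 * (s : ℝ)⁻¹)⁻¹ * (min (m : ℝ) (2 ^ n)) ^ ((s : ℝ)⁻¹) := by
        apply mul_le_mul_of_nonneg_left _ (by positivity)
        exact Real.rpow_le_rpow (by positivity) hUW hsinv.le

theorem lower {ε : ℝ} (hε : 0 < ε) (hε1 : ε ≤ 1) :
    ∃ a : ℝ, 0 < a ∧ ∃ C : ℝ, 0 < C ∧ ∀ c : ℝ, 0 < c → c ≤ 1 / 2 → ∀ n m : ℕ, 1 ≤ n → 1 ≤ m →
      C⁻¹ * (min (m : ℝ) (2 ^ n)) ^ a ≤ (chiStar n m c ε : ℝ) := by
  classical
  obtain ⟨a, ha, C, hC, hfam⟩ := Helper297.Family.family hε hε1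
  refine ⟨a, ha, C, hC, ?_⟩
  intro c hc0 hc n m hn hm
  have hnR : (1 : ℝ) ≤ (n : ℝ) := by exact_mod_cast hn
  have hmR : (1 : ℝ) ≤ (m : ℝ) := by exact_mod_cast hm
  obtain ⟨A, hA, hI⟩ := hfam n m hn hm
  obtain ⟨x, _, hx⟩ := exists_chromatic A ε
  have hxmem : x ∈ chiSet n m c ε := by
    refine ⟨A, ?_, hx⟩
    intro k
    have := hA k
    have h2 : c * (n : ℝ) ≤ 1 / 2 * (n : ℝ) := mul_le_mul_of_nonneg_right hc (by linarith)
    linarith
  have hxle : x ≤ chiStar n m c ε :=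
    (chiStar_isGreatest (n := n) (m := m) (c := c) (ε := ε) hn (by linarith)).2 hxmem
  have hcolor : (smallGraph A ε).Colorable x := by
    rw [← SimpleGraph.chromaticNumber_le_iff_colorable, hx]
  obtain ⟨f⟩ := hcolor
  set W : ℝ := min (m : ℝ) (2 ^ n) with hW
  have hW1 : 1 ≤ W := le_min hmR (one_le_pow₀ (by norm_num))
  have hclass : ∀ b : Fin x, ((univ.filter (fun i => f i = b)).card : ℝ) ≤ C * m * W ^ (-a) := by
    intro b
    apply hI
    intro i hi j hj hij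
    simp only [Finset.mem_filter, Finset.mem_univ, true_and] at hi hj
    by_contra hlt
    push Not at hlt
    have hadj : (smallGraph A ε).Adj i j := ⟨hij, hlt⟩
    exact f.valid hadj (by rw [hi, hj])
  have hsum : (m : ℝ) ≤ (x : ℝ) * (C * m * W ^ (-a)) := by
    have h1 : m = ∑ b : Fin x, (univ.filter (fun i => f i = b)).card := by
      have := Finset.card_eq_sum_card_fiberwise (s := (univ : Finset (Fin m)))
        (t := (univ : Finset (Fin x))) (f := f) (by intro i _; simp)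
      simpa using this
    calc (m : ℝ) = ∑ b : Fin x, ((univ.filter (fun i => f i = b)).card : ℝ) := by
          exact_mod_cast h1
      _ ≤ ∑ b : Fin x, (C * m * W ^ (-a)) := Finset.sum_le_sum (fun b _ => hclass b)
      _ = (x : ℝ) * (C * m * W ^ (-a)) := by simp
  have hWa : 0 < W ^ a := by positivity
  have h2 : 1 ≤ (x : ℝ) * (C * W ^ (-a)) := by
    have h3 : (m : ℝ) * 1 ≤ (m : ℝ) * ((x : ℝ) * (C * W ^ (-a))) := by
      calc (m : ℝ) * 1 = (m : ℝ) := mul_one _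
        _ ≤ (x : ℝ) * (C * m * W ^ (-a)) := hsum
        _ = (m : ℝ) * ((x : ℝ) * (C * W ^ (-a))) := by ring
    exact le_of_mul_le_mul_left h3 (by linarith)
  have h4 : C⁻¹ * W ^ a ≤ (x : ℝ) := by
    have h5 : C⁻¹ * W ^ a * 1 ≤ C⁻¹ * W ^ a * ((x : ℝ) * (C * W ^ (-a))) :=
      mul_le_mul_of_nonneg_left h2 (by positivity)
    have h6 : C⁻¹ * W ^ a * ((x : ℝ) * (C * W ^ (-a))) = (x : ℝ) := by
      rw [Real.rpow_neg (by positivity)]
      field_simp
    linarith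
  calc C⁻¹ * W ^ a ≤ (x : ℝ) := h4
    _ ≤ (chiStar n m c ε : ℝ) := by exact_mod_cast hxle

/-- For `0 < c ≤ 1/2` and every exponent `δ > 0` there is `ε₀ > 0` such that for every fixed
`0 < ε ≤ ε₀` there are `a, C > 0` with
`C⁻¹ · min(m, 2^n)^a ≤ χ*(n,m,c,ε) ≤ C · min(m, 2^n)^δ` for all `n, m ≥ 1`. -/
theorem result : ∀ c : ℝ, 0 < c → c ≤ 1 / 2 → ∀ δ : ℝ, 0 < δ →
    ∃ ε₀ : ℝ, 0 < ε₀ ∧ ∀ ε : ℝ, 0 < ε → ε ≤ ε₀ →
      ∃ a : ℝ, 0 < a ∧ ∃ C : ℝ, 0 < C ∧ ∀ n m : ℕ, 1 ≤ n → 1 ≤ m →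
        C⁻¹ * (min (m : ℝ) (2 ^ n)) ^ a ≤ (chiStar n m c ε : ℝ) ∧
        (chiStar n m c ε : ℝ) ≤ C * (min (m : ℝ) (2 ^ n)) ^ δ := by
  intro c hc0 hc δ hδ
  obtain ⟨s, hs⟩ := exists_nat_ge (max 1 δ⁻¹)
  have hs1R : (1 : ℝ) ≤ (s : ℝ) := (le_max_left _ _).trans hs
  have hs1 : 1 ≤ s := by exact_mod_cast hs1R
  have hsδ : (s : ℝ)⁻¹ ≤ δ := by
    have : δ⁻¹ ≤ (s : ℝ) := (le_max_right _ _).trans hs
    exact inv_le_of_inv_le₀ hδ this
  have hc1 : c < 1 := by linarith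
  refine ⟨c ^ (s + 1), by positivity, ?_⟩
  intro ε hε hεle
  have hε1 : ε ≤ 1 := hεle.trans (pow_le_one₀ hc0.le hc1.le)
  obtain ⟨a, ha, C₁, hC₁, hlow⟩ := lower hε hε1
  set C₂ : ℝ := (c / 4 * (s : ℝ)⁻¹)⁻¹ with hC₂
  have hC₂pos : 0 < C₂ := by positivity
  refine ⟨a, ha, max C₁ C₂, lt_max_of_lt_left hC₁, ?_⟩
  intro n m hn hm
  have hmR : (1 : ℝ) ≤ (m : ℝ) := by exact_mod_cast hm
  set W : ℝ := min (m : ℝ) (2 ^ n) with hW
  have hW1 : 1 ≤ W := le_min hmR (one_le_pow₀ (by norm_num))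
  constructor
  · refine le_trans ?_ (hlow c hc0 hc n m hn hm)
    apply mul_le_mul_of_nonneg_right _ (by positivity)
    exact inv_anti₀ hC₁ (le_max_left _ _)
  · refine (upper hc0 hc1 hs1 hεle hn hm).trans ?_
    apply mul_le_mul (le_max_right _ _) _ (by positivity) (by positivity)
    exact Real.rpow_le_rpow_of_exponent_le hW1 hsδ

end Pool.Agent.Results.MP_3a192b_co.GrowthTheta
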